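import Mathlib
import Pool.Agent.H948Z.SBDefs
import Pool.Agent.H948Z.SB

set_option autoImplicit false

namespace Pool.Agent.Results.MP_c112f0_ag.Exponential

open Pool.Agent.H948Z.SB

/-- For every `d ≥ 2` and `η ≥ 1` the small-subalgebra function satisfies
`B*(n, d) ≥ 2 ^ (n - 1)` for all `n ≥ 1`; so it is not bounded by `C n ^ e` for any `C, e > 0`. -/
theorem result (d η : ℕ) (hd : 2 ≤ d) (_hη : 1 ≤ η) :
    (∀ n : ℕ, 1 ≤ n → ((2 ^ (n - 1) : ℕ) : ℕ∞) ≤ etaB η n d) ∧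
    ¬ ∃ C e : ℝ, 0 < C ∧ 0 < e ∧ ∀ n : ℕ, 1 ≤ n →
      (etaB η n d : ENNReal) ≤ ENNReal.ofReal (C * (n : ℝ) ^ e) :=
  ⟨fun n hn => etaB_lower η n d hn hd, not_poly η d hd⟩

end Pool.Agent.Results.MP_c112f0_ag.Exponential
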